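import Pool.Agent.MP_1037db_co.Low
import Pool.Agent.MP_1037db_co.PT.Cls
import Pool.Agent.MP_1037db_co.Q.A.Z
import Pool.Agent.MP_1037db_co.Q.B.Z
import Pool.Agent.MP_1037db_co.Q.C.Z
import Pool.Agent.MP_1037db_co.Q.D.Z
import Pool.Agent.MP_1037db_co.Q.E.Z
import Pool.Agent.MP_1037db_co.Q.F.Z
import Pool.Agent.MP_1037db_co.Q.G.Z

namespace Pool.Agent.Results.MP_1037db_co.AllNorms

open Pool.Agent.MP_1037db_co

/-- The wake-up ratio of every norm on the plane is `1 + Lam η`: every finite family of points of the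
unit disk has a wake-up tree rooted at the origin with makespan at most `1 + Lam η`, and for some four
points no wake-up tree is faster. -/
theorem result (η : Seminorm ℝ (ℝ × ℝ)) (hη : ∀ x, η x = 0 → x = 0) :
    (∀ (n : ℕ) (p : Fin n → ℝ × ℝ), (∀ i, η (p i) ≤ 1) →
      ∃ T : BinaryTree (Fin n), labels T = Finset.univ.val ∧ span η p 0 T ≤ 1 + Lam η) ∧
    ∃ p : Fin 4 → ℝ × ℝ, (∀ i, η (p i) ≤ 1) ∧
      ∀ T : BinaryTree (Fin 4), labels T = Finset.univ.val → 1 + Lam η ≤ span η p 0 T :=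
  ⟨fun _ => PT.Cl.all ((PT.Ka.cl Q.A.many).app ((PT.Kb.cl Q.B.many).app ((PT.Kc.cl Q.C.many).app
    ((PT.Kd.cl Q.D.many).app ((PT.Ke.cl Q.E.many).app ((PT.Kf.cl Q.F.many).app (PT.Kg.cl Q.G.many)
    (by decide)) (by decide)) (by decide)) (by decide)) (by decide)) (by decide)) η hη, lower hη⟩

end Pool.Agent.Results.MP_1037db_co.AllNorms
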